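import Pool.Agent.H719R4.Fin
import Pool.Agent.H719R4.Alg2

/-!
# A non-amenable ergodic unimodular random graph with finite mean degree and zero speed

Vertices: `SL(2, K) × K × ℤ²` with `K` the field of rational functions over the field with two
elements. All cosets of larger and larger finite groups of elementary matrices are given a hub at
rare levels of `ℤ²`. As every element of `SL(2, K) × K` is a product of at most `24` elements from
locally finite subgroups, distances collapse, and simple random walk has speed zero, although the
graph satisfies a uniform edge isoperimetric inequality. Hence there is no slowdown on it.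
-/

open MeasureTheory ProbabilityTheory Set Filter Topology
open scoped ENNReal NNReal

namespace Pool.Agent.Results.MP_d2d64b_pr.ZeroSpeed

open Pool.Agent.H719R4 (cnd cdeg wexp)

/-- The mass-transport principle for the random rooted graph `(G, o)`, where `G` is a random graph
of law `μ` on the vertex set `V`: `f` runs over the measurable nonnegative functions of a graph and
two vertices that are invariant under relabelling the vertices. -/
def MassTransport {V : Type} (o : V) (μ : Measure (SimpleGraph V)) : Prop :=
  ∀ f : SimpleGraph V → V → V → ℝ≥0∞, (∀ x y, Measurable fun G => f G x y) →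
    (∀ (π : Equiv.Perm V) (G : SimpleGraph V) (x y : V), f (G.comap π) x y = f G (π x) (π y)) →
    ∫⁻ G, ∑' x, f G o x ∂μ = ∫⁻ G, ∑' x, f G x o ∂μ

/-- Ergodicity: every event that is invariant under relabelling the vertices (in particular it does
not depend on the root) has probability `0` or `1`. -/
def ErgodicLaw {V : Type} (μ : Measure (SimpleGraph V)) : Prop :=
  ∀ A : Set (SimpleGraph V), MeasurableSet A →
    (∀ (π : Equiv.Perm V) (G : SimpleGraph V), G.comap π ∈ A ↔ G ∈ A) → μ A = 0 ∨ μ A = 1

/-- Uniform edge expansion with constant one: every finite set `K` of vertices has at least `|K|`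
edges to its complement. -/
def Expands {V : Type} (G : SimpleGraph V) : Prop :=
  ∀ K : Finset V, (K.card : ℕ∞) ≤ {p : V × V | p.1 ∈ K ∧ p.2 ∉ K ∧ G.Adj p.1 p.2}.encard

/-- Mean of the graph distance `d(X_0, X_n)` for the random walk with conductances `c` of law `κ`,
independent of `G`, started at the root `o`, where the law is biased by the total conductance at
the root. Simple random walk is the case where `κ` is the point mass at the constant `1`. -/
noncomputable def meanDisp {V : Type} (o : V) (μ : Measure (SimpleGraph V))
    (κ : Measure (Sym2 V → ℝ≥0)) (n : ℕ) : ℝ≥0∞ :=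
  (∫⁻ G, ∫⁻ c, cdeg G c o * wexp G c n (fun y => (G.dist o y : ℝ≥0∞)) o ∂κ ∂μ) /
    ∫⁻ G, ∫⁻ c, cdeg G c o ∂κ ∂μ

/-- The speed: the limit of the mean displacement divided by the number of steps. -/
noncomputable def speed {V : Type} (o : V) (μ : Measure (SimpleGraph V))
    (κ : Measure (Sym2 V → ℝ≥0)) : ℝ≥0∞ :=
  limsup (fun n : ℕ => meanDisp o μ κ n / n) atTop

section
open Pool.Agent.H719R4
variable {V : Type} [Countable V]

lemma meas_dist (x y : V) : Measurable fun G : SimpleGraph V => G.dist x y := by
  refine measurable_of_Iic fun n => ?_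
  have : (fun G : SimpleGraph V => G.dist x y) ⁻¹' Iic n =
      {G | Wi G n x y} ∪ {G | G.Reachable x y}ᶜ := by
    ext G
    simp only [mem_preimage, mem_Iic, mem_union, mem_compl_iff, Set.mem_ofPred_eq]
    constructor
    · intro h
      by_cases hr : G.Reachable x y
      · left
        obtain ⟨p, hp⟩ := hr.exists_walk_length_eq_dist
        exact ⟨p, by omega⟩
      · exact Or.inr hr
    · rintro (h | h)
      · exact h.dist_le
      · rw [SimpleGraph.dist_eq_zero_of_not_reachable h]
        exact Nat.zero_le _
  rw [this]
  exact (meas_Wi n x y).union (meas_reach x y).compl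

lemma meas_wexp {f : SimpleGraph V → V → ℝ≥0∞} (hf : ∀ x, Measurable fun G => f G x) (n : ℕ) :
    ∀ x, Measurable fun G => wexp G one n (f G) x := by
  induction n with
  | zero => exact hf
  | succ n ih =>
    intro x
    exact (Measurable.tsum fun y => (meas_cnd' x y).mul (ih y)).div (meas_cdeg' x)

end

/-- There is an ergodic unimodular random graph `(G, o)` with finite mean degree in which every
finite vertex set `K` has at least `|K|` outgoing edges (so it is non-amenable), and whose simple
random walk has speed zero; so for no law of i.i.d. conductances is the speed of the conductance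
walk smaller than the speed of simple random walk. -/
theorem result : ∃ (V : Type) (_ : Countable V) (o : V) (μ : Measure (SimpleGraph V)),
    IsProbabilityMeasure μ ∧
    (∀ᵐ G ∂μ, G.Connected ∧ (∀ x, {y | G.Adj x y}.Finite) ∧ Expands G) ∧
    MassTransport o μ ∧
    ErgodicLaw μ ∧
    ∫⁻ G, ((G.neighborSet o).encard : ℝ≥0∞) ∂μ < ⊤ ∧
    (∀ n : ℕ, Measurable fun G : SimpleGraph V =>
      wexp G (fun _ => 1) n (fun y => (G.dist o y : ℝ≥0∞)) o) ∧
    Tendsto (fun n : ℕ => meanDisp o μ (Measure.dirac fun _ => 1) n / n) atTop (𝓝 0) ∧
    ∀ (ν : Measure ℝ≥0) [IsProbabilityMeasure ν],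
      speed o μ (Measure.dirac fun _ => 1) ≤ speed o μ (Measure.infinitePi fun _ => ν) := by
  let D := H719R4.Alg.DD
  have hspeed : Tendsto (fun n : ℕ => meanDisp (1 : H719R4.VV H719R4.Alg.HH) D.mu
      (Measure.dirac fun _ => 1) n / n) atTop (𝓝 0) := by
    refine tendsto_of_tendsto_of_tendsto_of_le_of_le tendsto_const_nhds D.speed_zero
      (fun _ => zero_le) fun n => ?_
    refine ENNReal.div_le_div_right ?_ _
    unfold meanDisp
    simp only [lintegral_dirac]
    refine ENNReal.div_le_of_le_mul ?_
    calc _ ≤ (∫⁻ G, cdeg G H719R4.one 1 *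
          wexp G H719R4.one n (fun y => (G.dist 1 y : ℝ≥0∞)) 1 ∂D.mu) * 1 := by
          rw [mul_one]
          exact le_rfl
      _ ≤ _ := by
          gcongr
          exact D.deg_pos
  refine ⟨H719R4.VV H719R4.Alg.HH, inferInstance, 1, D.mu, inferInstance, D.ae_graph,
    fun f hm hf => D.mtp f hm hf, fun A hA hinv => D.erg A hA hinv, ?_, ?_, hspeed, ?_⟩
  · have h := D.deg_fin
    simp only [H719R4.cdeg_eq] at h
    exact lt_of_le_of_lt h (by norm_num)
  · intro n
    refine meas_wexp (f := fun G y => (G.dist 1 y : ℝ≥0∞)) (fun x => ?_) n 1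
    exact (measurable_of_countable (fun k : ℕ => (k : ℝ≥0∞))).comp (meas_dist 1 x)
  · intro ν _
    unfold speed
    rw [hspeed.limsup_eq]
    exact zero_le

end Pool.Agent.Results.MP_d2d64b_pr.ZeroSpeed
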